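import Pool.Agent.W217.BE.Stm

/-! Base case of project BE: from the local statement to a prime ideal of a Noetherian ring. -/

set_option autoImplicit false

namespace Pool.Agent.W569.BEBASE

open Pool.Agent.W217.BE

theorem main : LOC → DESC → BASE := by
  intro hL hD A _ _ p _ N _ _ _ c hc hq hN
  apply hD
  have hnt : Nontrivial (LocalizedModule p.primeCompl N) := by
    obtain ⟨x, hx⟩ := hN
    refine ⟨LocalizedModule.mk x 1, 0, fun h => ?_⟩
    rw [← LocalizedModule.zero_mk (1 : p.primeCompl), LocalizedModule.mk_eq] at h
    obtain ⟨u, hu⟩ := h
    have hu2 : (u : A) • x = 0 := by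
      simpa [Submonoid.smul_def] using hu
    refine hx u ?_ hu2
    intro h0
    have h1 : algebraMap A (Localization.AtPrime p) u ∈
        IsLocalRing.maximalIdeal (Localization.AtPrime p) := by
      rw [← IsLocalRing.residue_eq_zero_iff]
      exact h0
    exact u.2 ((IsLocalization.AtPrime.to_map_mem_maximal_iff _ p (u : A)).1 h1)
  have hnoe : IsNoetherianRing (Localization.AtPrime p) :=
    IsLocalization.isNoetherianRing p.primeCompl _ inferInstance
  have hfin : Module.Finite (Localization.AtPrime p) (LocalizedModule p.primeCompl N) :=
    inferInstance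
  refine hL (Localization.AtPrime p) (LocalizedModule p.primeCompl N) c hc ?_
  intro q' hq' hann
  have hprime : (q'.comap (algebraMap A (Localization.AtPrime p))).IsPrime := inferInstance
  have h1 : Module.annihilator A N ≤ q'.comap (algebraMap A (Localization.AtPrime p)) := by
    intro a ha
    rw [Ideal.mem_comap]
    apply hann
    rw [Module.mem_annihilator] at ha ⊢
    intro y
    induction y using LocalizedModule.induction_on with
    | h m s =>
      rw [algebraMap_smul, LocalizedModule.smul'_mk, ha, LocalizedModule.zero_mk]
  have h2 := hq _ hprime h1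
  rwa [← Ideal.under_def, IsLocalization.height_under p.primeCompl] at h2

end Pool.Agent.W569.BEBASE
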