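import Pool.Agent.W569.John

/-!
Ball's volume ratio inequality for symmetric bodies in `ℝ^n`.
-/

set_option autoImplicit false

open MeasureTheory Matrix Filter Topology Set
open scoped ENNReal

namespace Pool.Agent.W569

/-- continuous trapezoid, equal to `1` on `[-1, 1]` -/
noncomputable def trap (ε t : ℝ) : ℝ := max 0 (min 1 ((1 + ε - |t|) / ε))

theorem trap_cont (ε : ℝ) : Continuous (trap ε) := by
  unfold trap
  fun_prop

theorem trap_nonneg (ε t : ℝ) : 0 ≤ trap ε t := le_max_left _ _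

theorem trap_one {ε t : ℝ} (hε : 0 < ε) (ht : |t| ≤ 1) : trap ε t = 1 := by
  unfold trap
  have h1 : 1 ≤ (1 + ε - |t|) / ε := by
    rw [le_div_iff₀ hε]
    linarith
  rw [min_eq_left h1]
  exact max_eq_right zero_le_one

theorem trap_le {ε : ℝ} (hε : 0 < ε) (t : ℝ) :
    trap ε t ≤ (Set.Icc (-(1 + ε)) (1 + ε)).indicator (fun _ => (1 : ℝ)) t := by
  by_cases h : t ∈ Set.Icc (-(1 + ε)) (1 + ε)
  · rw [Set.indicator_of_mem h]
    unfold trap
    exact max_le zero_le_one (min_le_left _ _)
  · rw [Set.indicator_of_notMem h]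
    unfold trap
    have h1 : 1 + ε < |t| := by
      by_contra hcon
      push Not at hcon
      exact h (abs_le.1 hcon)
    apply max_le le_rfl
    refine (min_le_right _ _).trans ?_
    apply div_nonpos_of_nonpos_of_nonneg _ hε.le
    linarith

theorem ind_int (ε : ℝ) : Integrable ((Set.Icc (-(1 + ε)) (1 + ε)).indicator (fun _ => (1 : ℝ))) := by
  rw [integrable_indicator_iff measurableSet_Icc]
  exact integrableOn_const (by simp) (by simp)

theorem trap_int {ε : ℝ} (hε : 0 < ε) : Integrable (trap ε) := by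
  refine (ind_int ε).mono' (trap_cont ε).aestronglyMeasurable ?_
  filter_upwards with t
  rw [Real.norm_of_nonneg (trap_nonneg ε t)]
  exact trap_le hε t

theorem trap_integral_le {ε : ℝ} (hε : 0 < ε) : ∫ t, trap ε t ≤ 2 + 2 * ε := by
  have h1 : ∫ t, trap ε t ≤ ∫ t, (Set.Icc (-(1 + ε)) (1 + ε)).indicator (fun _ => (1 : ℝ)) t :=
    integral_mono (trap_int hε) (ind_int ε) (trap_le hε)
  refine h1.trans ?_
  rw [integral_indicator measurableSet_Icc]
  simp only [integral_const, MeasurableSet.univ, measureReal_restrict_apply, univ_inter,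
    smul_eq_mul, mul_one]
  rw [Real.volume_real_Icc_of_le (by linarith)]
  linarith

/-- the volume of the intersection of the strips given by a decomposition of the identity -/
theorem strips_volume {n : ℕ} {ι : Type} [Fintype ι] (v : ι → Fin n → ℝ) (c : ι → ℝ)
    (hc : ∀ i, 0 < c i) (hv : ∀ i, v i ⬝ᵥ v i = 1)
    (hI : ∑ i, c i • vecMulVec (v i) (v i) = 1) (A : Set (Fin n → ℝ)) (hA : MeasurableSet A)
    (h : ∀ y ∈ A, ∀ i, |v i ⬝ᵥ y| ≤ 1) :
    volume A ≤ ENNReal.ofReal (2 ^ n) := by
  classical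
  have hsum : ∑ i, c i = n := by
    have h1 := congrArg Matrix.trace hI
    rw [Matrix.trace_sum, Matrix.trace_one, Fintype.card_fin] at h1
    rw [← h1]
    refine Finset.sum_congr rfl fun i _ => ?_
    rw [Matrix.trace_smul, Matrix.trace_vecMulVec, hv i, smul_eq_mul, mul_one]
  set w : ι → Fin n → ℝ := fun i => √(c i) • v i with hw
  have hww : ∀ i, w i ⬝ᵥ w i = c i := by
    intro i
    rw [hw]
    simp only
    rw [smul_dotProduct, dotProduct_smul, hv i, smul_eq_mul, smul_eq_mul, mul_one,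
      Real.mul_self_sqrt (hc i).le]
  have hI' : ∑ i, vecMulVec (w i) (w i) = 1 := by
    rw [← hI]
    refine Finset.sum_congr rfl fun i _ => ?_
    rw [hw]
    ext a b
    simp only [vecMulVec_apply, Pi.smul_apply, smul_eq_mul, Matrix.smul_apply]
    have := Real.mul_self_sqrt (hc i).le
    calc √(c i) * v i a * (√(c i) * v i b) = (√(c i) * √(c i)) * (v i a * v i b) := by ring
      _ = c i * (v i a * v i b) := by rw [this]
  have key : ∀ ε : ℝ, 0 < ε → volume A ≤ ENNReal.ofReal ((2 + 2 * ε) ^ n) := by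
    intro ε hε
    have h1 := Helper7.Simplex.OT.BL_all w hI' (fun i => by rw [hww]; exact hc i)
      (fun _ => trap ε) (fun _ => trap_cont ε) (fun _ t => trap_nonneg ε t)
      (fun _ => trap_int hε)
    have h2 : volume A ≤ ∫⁻ x : Fin n → ℝ, ENNReal.ofReal
        (∏ i, (trap ε ((w i ⬝ᵥ x) / √(w i ⬝ᵥ w i))) ^ (w i ⬝ᵥ w i)) := by
      rw [← lintegral_indicator_one hA]
      refine lintegral_mono fun x => ?_
      by_cases hx : x ∈ A
      · rw [Set.indicator_of_mem hx]
        have h3 : ∏ i, (trap ε ((w i ⬝ᵥ x) / √(w i ⬝ᵥ w i))) ^ (w i ⬝ᵥ w i) = 1 := by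
          apply Finset.prod_eq_one
          intro i _
          have h4 : (w i ⬝ᵥ x) / √(w i ⬝ᵥ w i) = v i ⬝ᵥ x := by
            rw [hww, hw]
            simp only
            rw [smul_dotProduct, smul_eq_mul]
            have := (Real.sqrt_pos.2 (hc i)).ne'
            field_simp
          rw [h4, trap_one hε (h x hx i), Real.one_rpow]
        rw [h3]
        simp
      · rw [Set.indicator_of_notMem hx]
        exact bot_le
    refine (h2.trans h1).trans (ENNReal.ofReal_le_ofReal ?_)
    simp only [hww]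
    have hnn : 0 ≤ ∫ t, trap ε t := integral_nonneg fun t => trap_nonneg ε t
    rw [← Real.rpow_sum_of_nonneg hnn fun i _ => (hc i).le, hsum, Real.rpow_natCast]
    exact pow_le_pow_left₀ hnn (trap_integral_le hε) n
  have hlim : Tendsto (fun k : ℕ => ENNReal.ofReal ((2 + 2 * (1 / ((k : ℝ) + 1))) ^ n)) atTop
      (𝓝 (ENNReal.ofReal (2 ^ n))) := by
    apply ENNReal.tendsto_ofReal
    have h3 : Tendsto (fun k : ℕ => 2 + 2 * (1 / ((k : ℝ) + 1))) atTop (𝓝 (2 + 2 * 0)) :=
      (tendsto_one_div_add_atTop_nhds_zero_nat.const_mul 2).const_add 2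
    rw [mul_zero, add_zero] at h3
    exact h3.pow n
  exact ge_of_tendsto' hlim fun k => key _ (by positivity)

/-- **Ball's volume ratio inequality** for symmetric convex bodies. -/
theorem volume_ratio {n : ℕ} (hn : 0 < n) {K : Set (Fin n → ℝ)} (hc : IsCompact K)
    (hv : Convex ℝ K) (hs : ∀ x ∈ K, -x ∈ K) (h0 : K ∈ 𝓝 0) :
    ∃ S : Matrix (Fin n) (Fin n) ℝ, 0 < S.det ∧ (∀ x, x ⬝ᵥ x ≤ 1 → S *ᵥ x ∈ K) ∧
      volume K ≤ ENNReal.ofReal (2 ^ n * S.det) := by
  classical
  obtain ⟨S, hdet, hS, ι, hι, v, c, hcpos, hv1, hI, hle⟩ := john hn hc hv hs h0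
  refine ⟨S, hdet, hS, ?_⟩
  set A : Set (Fin n → ℝ) := (Matrix.toLin' S) ⁻¹' K with hA
  have hAm : MeasurableSet A := by
    refine hc.isClosed.measurableSet.preimage ?_
    exact (LinearMap.continuous_of_finiteDimensional _).measurable
  have h1 : volume A ≤ ENNReal.ofReal (2 ^ n) :=
    strips_volume v c hcpos hv1 hI A hAm fun y hy i => hle i y (by
      have : Matrix.toLin' S y ∈ K := hy
      rwa [Matrix.toLin'_apply] at this)
  have h2 : volume A = ENNReal.ofReal (S.det)⁻¹ * volume K := by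
    rw [hA, Measure.addHaar_preimage_linearMap volume (by rw [LinearMap.det_toLin']; exact hdet.ne'),
      LinearMap.det_toLin', abs_of_pos (inv_pos.2 hdet)]
  have h3 : volume K = ENNReal.ofReal S.det * volume A := by
    rw [h2, ← mul_assoc, ← ENNReal.ofReal_mul hdet.le, mul_inv_cancel₀ hdet.ne', ENNReal.ofReal_one,
      one_mul]
  rw [h3, mul_comm (2 ^ n : ℝ), ENNReal.ofReal_mul hdet.le]
  gcongr

end Pool.Agent.W569
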