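import Pool.Agent.W569.Ball
import Pool.Agent.Results.MP_808d7a_gt.GeoMeanAsymptotics

/-!
The lower bound `g_n ≥ κ_n / 2^n`.
-/

set_option autoImplicit false

open MeasureTheory Matrix Filter Topology Set
open scoped ENNReal Pointwise
open Pool.Agent.Results.MP_808d7a_gt.GeoMeanAsymptotics

namespace Pool.Agent.W569

/-- action of a matrix on Euclidean space -/
noncomputable def act {n : ℕ} (S : Matrix (Fin n) (Fin n) ℝ) (x : EuclideanSpace ℝ (Fin n)) :
    EuclideanSpace ℝ (Fin n) := WithLp.toLp 2 (S *ᵥ x.ofLp)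

theorem inner_dot {n : ℕ} (x y : EuclideanSpace ℝ (Fin n)) :
    inner ℝ x y = x.ofLp ⬝ᵥ y.ofLp := by
  rw [EuclideanSpace.inner_eq_star_dotProduct, star_trivial, dotProduct_comm]

theorem inner_act {n : ℕ} (S : Matrix (Fin n) (Fin n) ℝ) (x y : EuclideanSpace ℝ (Fin n)) :
    inner ℝ (act S x) y = inner ℝ x (act Sᵀ y) := by
  rw [inner_dot, inner_dot]
  show (S *ᵥ x.ofLp) ⬝ᵥ y.ofLp = x.ofLp ⬝ᵥ (Sᵀ *ᵥ y.ofLp)
  rw [mulVec_transpose, dotProduct_comm, dotProduct_mulVec, dotProduct_comm]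

theorem act_act {n : ℕ} (S T : Matrix (Fin n) (Fin n) ℝ) (x : EuclideanSpace ℝ (Fin n)) :
    act S (act T x) = act (S * T) x := by
  unfold act
  simp [mulVec_mulVec]

theorem act_add {n : ℕ} (S : Matrix (Fin n) (Fin n) ℝ) (x y : EuclideanSpace ℝ (Fin n)) :
    act S (x + y) = act S x + act S y := by
  unfold act
  simp [mulVec_add]

theorem act_smul {n : ℕ} (S : Matrix (Fin n) (Fin n) ℝ) (c : ℝ) (x : EuclideanSpace ℝ (Fin n)) :
    act S (c • x) = c • act S x := by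
  unfold act
  simp [mulVec_smul]

theorem norm_sq_dot {n : ℕ} (x : EuclideanSpace ℝ (Fin n)) : ‖x‖ ^ 2 = x.ofLp ⬝ᵥ x.ofLp := by
  rw [← real_inner_self_eq_norm_sq, inner_dot]

theorem norm_le_one_iff {n : ℕ} (x : EuclideanSpace ℝ (Fin n)) :
    ‖x‖ ≤ 1 ↔ x.ofLp ⬝ᵥ x.ofLp ≤ 1 := by
  rw [← norm_sq_dot]
  constructor
  · intro h
    have := norm_nonneg x
    nlinarith
  · intro h
    have := norm_nonneg x
    nlinarith

theorem act_volume {n : ℕ} (S : Matrix (Fin n) (Fin n) ℝ) (A : Set (EuclideanSpace ℝ (Fin n))) :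
    volume (act S '' A) = ENNReal.ofReal |S.det| * volume A := by
  have h1 : act S '' A = (Matrix.toEuclideanLin S) '' A := by
    apply Set.image_congr
    intro x _
    rfl
  rw [h1, Measure.addHaar_image_linearMap]
  congr 2
  simp

/-- volume ratio inequality in Euclidean space -/
theorem volume_ratio_euclid {n : ℕ} (hn : 0 < n) {K : Set (EuclideanSpace ℝ (Fin n))}
    (hK : Body K) : ∃ S : Matrix (Fin n) (Fin n) ℝ, 0 < S.det ∧
      (∀ x, ‖x‖ ≤ 1 → act S x ∈ K) ∧ volume K ≤ ENNReal.ofReal (2 ^ n * S.det) := by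
  have hpre : IsCompact ((WithLp.toLp 2 : (Fin n → ℝ) → EuclideanSpace ℝ (Fin n)) ⁻¹' K) := by
    have : ((WithLp.toLp 2 : (Fin n → ℝ) → EuclideanSpace ℝ (Fin n)) ⁻¹' K) =
        (WithLp.ofLp : EuclideanSpace ℝ (Fin n) → (Fin n → ℝ)) '' K := by
      ext x
      constructor
      · intro hx
        exact ⟨WithLp.toLp 2 x, hx, rfl⟩
      · rintro ⟨y, hy, rfl⟩
        exact hy
    rw [this]
    exact hK.cpt.image (PiLp.continuous_ofLp 2 _)
  obtain ⟨r, hr, hb⟩ := hK.ball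
  obtain ⟨S, h1, h2, h3⟩ := volume_ratio hn hpre
    (by
      intro x hx y hy a b ha hb hab
      exact hK.cvx hx hy ha hb hab)
    (by
      intro x hx
      exact hK.symm _ hx)
    (by
      have hc : Continuous (WithLp.toLp 2 : (Fin n → ℝ) → EuclideanSpace ℝ (Fin n)) :=
        PiLp.continuous_toLp 2 _
      apply hc.continuousAt.preimage_mem_nhds
      have : K ∈ 𝓝 (0 : EuclideanSpace ℝ (Fin n)) :=
        Filter.mem_of_superset (Metric.closedBall_mem_nhds _ hr) hb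
      exact this)
  refine ⟨S, h1, ?_, ?_⟩
  · intro x hx
    exact h2 _ ((norm_le_one_iff x).1 hx)
  · have h4 := (PiLp.volume_preserving_toLp (Fin n)).measure_preimage
      (s := K) hK.cpt.isClosed.measurableSet.nullMeasurableSet
    rw [← h4]
    exact h3

/-- the polar of `A` is sent by `W` into `H` -/
def PW {n : ℕ} (W : Matrix (Fin n) (Fin n) ℝ) (A H : Set (EuclideanSpace ℝ (Fin n))) : Prop :=
  ∀ y ∈ polarBody A, act W y ∈ H

theorem PW.next {n : ℕ} {W : Matrix (Fin n) (Fin n) ℝ} (hW : Wᵀ = W)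
    {A H : Set (EuclideanSpace ℝ (Fin n))} (hA : Body A) (h : PW W A H) :
    PW W ((1 / 2 : ℝ) • (A + H))
      (polarBody ((1 / 2 : ℝ) • (polarBody A + polarBody H))) := by
  intro y hy z hz
  obtain ⟨a, ha, b, hb, rfl⟩ := mem_half_add.mp hz
  have h1 : act W a ∈ H := h a ha
  have h2 : act W b ∈ A := by
    rw [← bipolar hA.cpt.isClosed hA.cvx hA.zero_mem]
    intro c hc
    rw [← hW, ← inner_act]
    exact hb _ (h c hc)
  have h3 := hy _ (mem_half_add.mpr ⟨_, h2, _, h1, rfl⟩)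
  rw [← act_add, ← act_smul, inner_act, hW] at h3
  rw [add_comm a b]
  exact h3

theorem PW.seq {n : ℕ} {W : Matrix (Fin n) (Fin n) ℝ} (hW : Wᵀ = W)
    {K T : Set (EuclideanSpace ℝ (Fin n))} (hK : Body K) (hT : Body T) (h : PW W K T) (k : ℕ) :
    PW W (meanSeq K T k).1 (meanSeq K T k).2 := by
  induction k with
  | zero => exact h
  | succ k ih => exact PW.next hW (meanSeq_body hK hT k).1 ih

theorem ellipsoid_subset {n : ℕ} {R : Matrix (Fin n) (Fin n) ℝ}
    {K T : Set (EuclideanSpace ℝ (Fin n))} (hK : Body K) (hT : Body T) (h : PW (R * Rᵀ) K T)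
    (k : ℕ) (x : EuclideanSpace ℝ (Fin n)) (hx : ‖x‖ ≤ 1) :
    act R x ∈ (meanSeq K T (k + 1)).1 := by
  have hW : (R * Rᵀ)ᵀ = R * Rᵀ := by
    rw [transpose_mul, transpose_transpose]
  have hb := (meanSeq_body hK hT (k + 1)).1
  rw [← bipolar hb.cpt.isClosed hb.cvx hb.zero_mem]
  intro y hy
  have h1 : act (R * Rᵀ) y ∈ (meanSeq K T (k + 1)).1 :=
    meanSeq_snd_subset_fst hK hT k (PW.seq hW hK hT h (k + 1) y hy)
  have h2 := hy _ h1
  rw [← act_act, inner_act, real_inner_self_eq_norm_sq] at h2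
  have h3 : ‖act Rᵀ y‖ ≤ 1 := by
    have := norm_nonneg (act Rᵀ y)
    nlinarith
  have h4 : inner ℝ y (act R x) = inner ℝ (act Rᵀ y) x := by
    rw [inner_act, transpose_transpose]
  rw [h4]
  calc inner ℝ (act Rᵀ y) x ≤ ‖act Rᵀ y‖ * ‖x‖ := real_inner_le_norm _ _
    _ ≤ 1 * 1 := by gcongr
    _ = 1 := one_mul 1

theorem ellipsoid_subset_mean {n : ℕ} {R : Matrix (Fin n) (Fin n) ℝ}
    {K T G : Set (EuclideanSpace ℝ (Fin n))} (hK : Body K) (hT : Body T)
    (hG : IsGeometricMean K T G) (h : PW (R * Rᵀ) K T) :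
    act R '' Metric.closedBall 0 1 ⊆ G := by
  obtain ⟨G', hG', -, hGA, -⟩ := exists_geometricMean hK hT
  have hGG : G = G' := geometricMean_unique hK hT hG hG'
  obtain ⟨hGc, hGn, hGt, -⟩ := hG
  rintro _ ⟨x, hx, rfl⟩
  rw [mem_closedBall_zero_iff] at hx
  have h1 : ∀ k, act R x ∈ (meanSeq K T (k + 1)).1 := fun k => ellipsoid_subset hK hT h k x hx
  have h2 : ∀ k, Metric.infDist (act R x) G ≤ Metric.hausdorffDist (meanSeq K T (k + 1)).1 G := by
    intro k
    apply Metric.infDist_le_hausdorffDist_of_mem (h1 k)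
    apply Metric.hausdorffEDist_ne_top_of_nonempty_of_bounded
    · exact ⟨_, h1 k⟩
    · exact hGn
    · exact (meanSeq_body hK hT (k + 1)).1.cpt.isBounded
    · exact hGc.isBounded
  have h3 : Metric.infDist (act R x) G ≤ 0 :=
    ge_of_tendsto' (hGt.comp (tendsto_add_atTop_nat 1)) h2
  have h4 : Metric.infDist (act R x) G = 0 := le_antisymm h3 Metric.infDist_nonneg
  exact (hGc.isClosed.mem_iff_infDist_zero hGn).2 h4

theorem exists_R {n : ℕ} {S1 S2 : Matrix (Fin n) (Fin n) ℝ} (h1 : 0 < S1.det) (h2 : 0 < S2.det) :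
    ∃ R : Matrix (Fin n) (Fin n) ℝ, R.det = √(S1.det * S2.det) ∧
      ∀ y : Fin n → ℝ, (S1ᵀ *ᵥ y) ⬝ᵥ (S1ᵀ *ᵥ y) ≤ 1 →
        ∃ x : Fin n → ℝ, x ⬝ᵥ x ≤ 1 ∧ (R * Rᵀ) *ᵥ y = S2 *ᵥ x := by
  have hu1 : IsUnit S1.det := isUnit_iff_ne_zero.mpr h1.ne'
  set T : Matrix (Fin n) (Fin n) ℝ := S1⁻¹ * S2 with hT
  have hS2 : S1 * T = S2 := by
    rw [hT, ← Matrix.mul_assoc, Matrix.mul_nonsing_inv S1 hu1, Matrix.one_mul]
  have hdT : T.det = S2.det / S1.det := by
    rw [hT, Matrix.det_mul, Matrix.det_nonsing_inv, Ring.inverse_eq_inv']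
    field_simp
  have hdT0 : 0 < T.det := by rw [hdT]; positivity
  have huT : IsUnit T.det := isUnit_iff_ne_zero.mpr hdT0.ne'
  set X : Matrix (Fin n) (Fin n) ℝ := T * Tᵀ with hX
  have hXs : X.PosSemidef := by
    have := Matrix.posSemidef_self_mul_conjTranspose T
    rwa [conjTranspose_eq_transpose_of_trivial] at this
  obtain ⟨N, hN, hNN⟩ : ∃ N : Matrix (Fin n) (Fin n) ℝ, N.PosSemidef ∧ N * N = X := by
    open scoped MatrixOrder in
    exact ⟨CFC.sqrt X, (CFC.sqrt_nonneg X).posSemidef, CFC.sqrt_mul_sqrt_self X hXs.nonneg⟩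
  obtain ⟨R0, hR0, hRR⟩ : ∃ R0 : Matrix (Fin n) (Fin n) ℝ, R0.PosSemidef ∧ R0 * R0 = N := by
    open scoped MatrixOrder in
    exact ⟨CFC.sqrt N, (CFC.sqrt_nonneg N).posSemidef, CFC.sqrt_mul_sqrt_self N hN.nonneg⟩
  have hNt : Nᵀ = N := by
    have := hN.isHermitian.eq
    rwa [conjTranspose_eq_transpose_of_trivial] at this
  have hR0t : R0ᵀ = R0 := by
    have := hR0.isHermitian.eq
    rwa [conjTranspose_eq_transpose_of_trivial] at this
  have hdN : N.det = T.det := by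
    have h3 : N.det * N.det = T.det * T.det := by
      rw [← Matrix.det_mul, hNN, hX, Matrix.det_mul, Matrix.det_transpose]
    have h4 : 0 ≤ N.det := hN.det_nonneg
    nlinarith
  have huN : IsUnit N.det := by rw [hdN]; exact huT
  have hdR0 : R0.det = √T.det := by
    have h3 : R0.det * R0.det = T.det := by
      rw [← Matrix.det_mul, hRR, hdN]
    have h4 : 0 ≤ R0.det := hR0.det_nonneg
    rw [← h3, Real.sqrt_mul_self h4]
  refine ⟨S1 * R0, ?_, ?_⟩
  · rw [Matrix.det_mul, hdR0, hdT]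
    have e : S1.det * S2.det = (S1.det) ^ 2 * (S2.det / S1.det) := by field_simp
    rw [e, Real.sqrt_mul (by positivity), Real.sqrt_sq h1.le]
  · intro y hy
    have hRR' : (S1 * R0) * (S1 * R0)ᵀ = S1 * N * S1ᵀ := by
      rw [transpose_mul, hR0t, Matrix.mul_assoc, ← Matrix.mul_assoc R0, hRR, ← Matrix.mul_assoc]
    refine ⟨(T⁻¹ * N) *ᵥ (S1ᵀ *ᵥ y), ?_, ?_⟩
    · have h3 : (T⁻¹ * N)ᵀ * (T⁻¹ * N) = 1 := by
        have h4 : (T⁻¹)ᵀ * T⁻¹ = X⁻¹ := by
          rw [hX, Matrix.mul_inv_rev T Tᵀ, Matrix.transpose_nonsing_inv T]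
        rw [transpose_mul, hNt, Matrix.mul_assoc, ← Matrix.mul_assoc (T⁻¹)ᵀ, h4, ← hNN,
          Matrix.mul_inv_rev, Matrix.mul_assoc, Matrix.nonsing_inv_mul N huN, Matrix.mul_one,
          Matrix.mul_nonsing_inv N huN]
      set z := S1ᵀ *ᵥ y with hz
      have h5 : ((T⁻¹ * N) *ᵥ z) ⬝ᵥ ((T⁻¹ * N) *ᵥ z) = z ⬝ᵥ z := by
        rw [dotProduct_mulVec, ← mulVec_transpose, mulVec_mulVec, h3, one_mulVec]
      rw [h5]
      exact hy
    · rw [hRR', mulVec_mulVec, mulVec_mulVec, ← hS2]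
      congr 1
      rw [Matrix.mul_assoc S1 T (T⁻¹ * N), Matrix.mul_nonsing_inv_cancel_left T N huT]

theorem lower {n : ℕ} (hn : 0 < n) {K T G : Set (EuclideanSpace ℝ (Fin n))} (hK : Body K)
    (hT : Body T) (hG : IsGeometricMean K T G) :
    (volume (Metric.closedBall (0 : EuclideanSpace ℝ (Fin n)) 1)).toReal / 2 ^ n *
      √((volume K).toReal * (volume T).toReal) ≤ (volume G).toReal := by
  obtain ⟨S1, hd1, hs1, hv1⟩ := volume_ratio_euclid hn hK
  obtain ⟨S2, hd2, hs2, hv2⟩ := volume_ratio_euclid hn hT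
  obtain ⟨R, hR, hRy⟩ := exists_R hd1 hd2
  have hPW : PW (R * Rᵀ) K T := by
    intro y hy
    have h1 : ‖act S1ᵀ y‖ ≤ 1 := by
      by_cases h0 : act S1ᵀ y = 0
      · rw [h0]; simp
      have hpos : 0 < ‖act S1ᵀ y‖ := norm_pos_iff.2 h0
      have h2 := hy _ (hs1 (‖act S1ᵀ y‖⁻¹ • act S1ᵀ y) (by
        rw [norm_smul, norm_inv, norm_norm, inv_mul_cancel₀ hpos.ne']))
      rw [inner_act, real_inner_smul_left, real_inner_self_eq_norm_sq] at h2
      have h3 : ‖act S1ᵀ y‖⁻¹ * ‖act S1ᵀ y‖ ^ 2 = ‖act S1ᵀ y‖ := by field_simp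
      rwa [h3] at h2
    obtain ⟨x, hx, hxy⟩ := hRy y.ofLp ((norm_le_one_iff _).1 h1)
    have h4 : act (R * Rᵀ) y = act S2 (WithLp.toLp 2 x) := by
      unfold act
      rw [hxy]
    rw [h4]
    exact hs2 _ ((norm_le_one_iff _).2 hx)
  have hsub := ellipsoid_subset_mean hK hT hG hPW
  have h1 := measure_mono (μ := volume) hsub
  rw [act_volume, hR, abs_of_nonneg (Real.sqrt_nonneg _)] at h1
  have h2 := ENNReal.toReal_mono hG.1.measure_lt_top.ne h1
  rw [ENNReal.toReal_mul, ENNReal.toReal_ofReal (Real.sqrt_nonneg _)] at h2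
  refine le_trans ?_ h2
  set κ := (volume (Metric.closedBall (0 : EuclideanSpace ℝ (Fin n)) 1)).toReal with hκ
  have hκ0 : 0 ≤ κ := ENNReal.toReal_nonneg
  have h3 : (volume K).toReal ≤ 2 ^ n * S1.det := by
    have := ENNReal.toReal_mono ENNReal.ofReal_ne_top hv1
    rwa [ENNReal.toReal_ofReal (by positivity)] at this
  have h4 : (volume T).toReal ≤ 2 ^ n * S2.det := by
    have := ENNReal.toReal_mono ENNReal.ofReal_ne_top hv2
    rwa [ENNReal.toReal_ofReal (by positivity)] at this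
  have h5 : √((volume K).toReal * (volume T).toReal) ≤ 2 ^ n * √(S1.det * S2.det) := by
    calc √((volume K).toReal * (volume T).toReal)
        ≤ √((2 ^ n * S1.det) * (2 ^ n * S2.det)) := by
          apply Real.sqrt_le_sqrt
          gcongr
      _ = √((2 ^ n) ^ 2 * (S1.det * S2.det)) := by
          congr 1
          ring
      _ = 2 ^ n * √(S1.det * S2.det) := by
          rw [Real.sqrt_mul (by positivity), Real.sqrt_sq (by positivity)]
  calc κ / 2 ^ n * √((volume K).toReal * (volume T).toReal)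
      ≤ κ / 2 ^ n * (2 ^ n * √(S1.det * S2.det)) := by gcongr
    _ = √(S1.det * S2.det) * κ := by field_simp

end Pool.Agent.W569
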