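import Pool.Agent.Helper7.OT.Two

/-!
John's theorem for symmetric bodies in `ℝ^n` and Ball's volume ratio inequality.
-/

set_option autoImplicit false

open MeasureTheory Matrix Filter Topology Set
open scoped ENNReal

namespace Pool.Agent.W569

/-- the convex hull of a compact set in finite dimension is compact -/
theorem compact_hull {E : Type*} [NormedAddCommGroup E] [NormedSpace ℝ E]
    [FiniteDimensional ℝ E] {s : Set E} (hs : IsCompact s) : IsCompact (convexHull ℝ s) := by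
  classical
  rcases s.eq_empty_or_nonempty with rfl | ⟨x0, hx0⟩
  · rw [convexHull_empty]
    exact isCompact_empty
  obtain ⟨n, hn⟩ : ∃ n, n = Module.finrank ℝ E + 1 := ⟨_, rfl⟩
  have hK : IsCompact ((stdSimplex ℝ (Fin n)) ×ˢ (Set.pi Set.univ (fun _ : Fin n => s))) :=
    (isCompact_stdSimplex ℝ (Fin n)).prod (isCompact_univ_pi fun _ => hs)
  have hcont : Continuous (fun p : (Fin n → ℝ) × (Fin n → E) => ∑ i, p.1 i • p.2 i) := by
    refine continuous_finsetSum _ fun i _ => ?_
    exact ((continuous_apply i).comp continuous_fst).smul ((continuous_apply i).comp continuous_snd)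
  have heq : convexHull ℝ s = (fun p : (Fin n → ℝ) × (Fin n → E) => ∑ i, p.1 i • p.2 i) ''
      ((stdSimplex ℝ (Fin n)) ×ˢ (Set.pi Set.univ (fun _ : Fin n => s))) := by
    apply Set.Subset.antisymm
    · intro x hx
      obtain ⟨ι, hι, z, w, hz, hai, hw0, hw1, hwz⟩ := eq_pos_convex_span_of_mem_convexHull hx
      have hcard : Fintype.card ι ≤ Fintype.card (Fin n) := by
        have h1 := hai.card_le_finrank_succ
        have h2 := Submodule.finrank_le (vectorSpan ℝ (Set.range z))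
        rw [Fintype.card_fin, hn]
        omega
      obtain ⟨e⟩ := Function.Embedding.nonempty_of_card_le hcard
      refine ⟨(Function.extend e w 0, Function.extend e z (fun _ => x0)), ⟨⟨?_, ?_⟩, ?_⟩, ?_⟩
      · intro j
        show (0 : ℝ) ≤ Function.extend e w 0 j
        by_cases hj : ∃ i, e i = j
        · obtain ⟨i, rfl⟩ := hj
          rw [e.injective.extend_apply]
          exact (hw0 i).le
        · rw [Function.extend_apply' _ _ _ hj]
          exact le_rfl
      · rw [← hw1]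
        symm
        refine Fintype.sum_of_injective e e.injective _ _ ?_ ?_
        · intro j hj
          show Function.extend e w 0 j = 0
          rw [Function.extend_apply' _ _ _ hj]
          rfl
        · intro i
          show w i = Function.extend e w 0 (e i)
          rw [e.injective.extend_apply]
      · intro j _
        by_cases hj : ∃ i, e i = j
        · obtain ⟨i, rfl⟩ := hj
          show Function.extend e z (fun _ => x0) (e i) ∈ s
          rw [e.injective.extend_apply]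
          exact hz ⟨i, rfl⟩
        · show Function.extend e z (fun _ => x0) j ∈ s
          rw [Function.extend_apply' _ _ _ hj]
          exact hx0
      · rw [← hwz]
        symm
        refine Fintype.sum_of_injective e e.injective _ _ ?_ ?_
        · intro j hj
          show Function.extend e w 0 j • Function.extend e z (fun _ => x0) j = 0
          rw [Function.extend_apply' w _ _ hj]
          simp
        · intro i
          show w i • z i = Function.extend e w 0 (e i) • Function.extend e z (fun _ => x0) (e i)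
          rw [e.injective.extend_apply, e.injective.extend_apply]
    · rintro _ ⟨⟨w, z⟩, ⟨⟨hw0, hw1⟩, hz⟩, rfl⟩
      refine (convex_convexHull ℝ s).sum_mem (fun i _ => hw0 i) hw1 (fun i _ => ?_)
      exact subset_convexHull ℝ s (hz i (Set.mem_univ i))
  rw [heq]
  exact hK.image hcont

theorem trace_le_of_det {n : ℕ} (B : Matrix (Fin n) (Fin n) ℝ) (M : ℝ)
    (h : ∀ t : ℝ, 0 < t → det (1 + t • B) ≤ (1 + t * M) ^ n) :
    Matrix.trace B ≤ n * M := by
  set q := (det (1 + (Polynomial.X : Polynomial ℝ) • B.map Polynomial.C)).divX.divX with hq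
  have h1 : ∀ t : ℝ, det (1 + t • B) = 1 + trace B * t + q.eval t * t ^ 2 := by
    intro t
    exact Matrix.det_one_add_smul t B
  have h2 : ∀ t : ℝ, 0 < t →
      trace B ≤ (t⁻¹ * ((1 + t * M) ^ n - (1 + 0 * M) ^ n)) - q.eval t * t := by
    intro t ht
    have h3 := h t ht
    rw [h1 t] at h3
    have h5 : t * (trace B + q.eval t * t) ≤ (1 + t * M) ^ n - 1 := by
      nlinarith
    have h6 : trace B + q.eval t * t ≤ t⁻¹ * ((1 + t * M) ^ n - 1) := by
      rw [inv_mul_eq_div, le_div_iff₀ ht]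
      nlinarith
    have h7 : (1 + 0 * M) ^ n = 1 := by simp
    rw [h7]
    linarith
  have hd : HasDerivAt (fun t : ℝ => (1 + t * M) ^ n) (n * M) 0 := by
    have h8 : HasDerivAt (fun t : ℝ => 1 + t * M) M 0 := by
      simpa using ((hasDerivAt_id (0 : ℝ)).mul_const M).const_add 1
    have h9 := h8.fun_pow n
    simpa using h9
  have ht1 : Filter.Tendsto (fun t : ℝ => t⁻¹ * ((1 + t * M) ^ n - (1 + 0 * M) ^ n))
      (nhdsWithin 0 (Set.Ioi 0)) (nhds (n * M)) := by
    have h10 := (hasDerivAt_iff_tendsto_slope.mp hd)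
    have h11 : Filter.Tendsto (slope (fun t : ℝ => (1 + t * M) ^ n) 0) (nhdsWithin 0 (Set.Ioi 0))
        (nhds (n * M)) :=
      h10.mono_left (nhdsWithin_mono _ (fun x hx => ne_of_gt hx))
    refine h11.congr (fun t => ?_)
    simp [slope_def_field, div_eq_inv_mul]
  have ht2 : Filter.Tendsto (fun t : ℝ => q.eval t * t)
      (nhdsWithin 0 (Set.Ioi 0)) (nhds 0) := by
    have hc : Continuous (fun t : ℝ => q.eval t * t) := by
      have := q.continuous
      fun_prop
    have h12 := hc.tendsto 0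
    simp only [mul_zero] at h12
    exact h12.mono_left nhdsWithin_le_nhds
  have ht3 := ht1.sub ht2
  rw [sub_zero] at ht3
  refine ge_of_tendsto ht3 ?_
  filter_upwards [self_mem_nhdsWithin] with t ht
  exact h2 t ht

/-- real functionals on matrices -/
theorem exists_mat {n : ℕ} (f : (Fin n → Fin n → ℝ) →L[ℝ] ℝ) :
    ∃ B : Matrix (Fin n) (Fin n) ℝ, ∀ M : Fin n → Fin n → ℝ,
      f M = ∑ i, ∑ j, M i j * B i j := by
  classical
  refine ⟨fun i j => f (fun a b => if a = i ∧ b = j then 1 else 0), fun M => ?_⟩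
  have h1 : M = ∑ i, ∑ j, M i j • (fun a b => if a = i ∧ b = j then (1 : ℝ) else 0) := by
    funext a b
    simp only [Finset.sum_apply, Pi.smul_apply, smul_eq_mul]
    rw [Finset.sum_eq_single a, Finset.sum_eq_single b]
    · simp
    · intro j _ hj
      simp [hj.symm]
    · simp
    · intro i _ hi
      apply Finset.sum_eq_zero
      intro j _
      simp [hi.symm]
    · simp
  conv_lhs => rw [h1]
  simp only [map_sum, map_smul, smul_eq_mul]

/-- real functionals on vectors -/
theorem exists_vec {n : ℕ} (f : (Fin n → ℝ) →L[ℝ] ℝ) :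
    ∃ g : Fin n → ℝ, ∀ x : Fin n → ℝ, f x = g ⬝ᵥ x := by
  classical
  refine ⟨fun i => f (fun a => if a = i then 1 else 0), fun x => ?_⟩
  have h1 : x = ∑ i, x i • (fun a => if a = i then (1 : ℝ) else 0) := by
    funext a
    simp only [Finset.sum_apply, Pi.smul_apply, smul_eq_mul]
    rw [Finset.sum_eq_single a]
    · simp
    · intro j _ hj
      simp [hj.symm]
    · simp
  conv_lhs => rw [h1]
  simp only [map_sum, map_smul, smul_eq_mul, dotProduct]
  exact Finset.sum_congr rfl fun i _ => mul_comm _ _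

theorem abs_le_of_dot {n : ℕ} {x : Fin n → ℝ} (hx : x ⬝ᵥ x ≤ 1) (i : Fin n) : |x i| ≤ 1 := by
  have h1 : x i * x i ≤ x ⬝ᵥ x :=
    Finset.single_le_sum (f := fun i => x i * x i) (fun i _ => mul_self_nonneg _)
      (Finset.mem_univ i)
  rw [abs_le]
  constructor <;> nlinarith

theorem exists_max {n : ℕ} {K : Set (Fin n → ℝ)} (hc : IsCompact K) (h0 : K ∈ 𝓝 0) :
    ∃ S : Matrix (Fin n) (Fin n) ℝ, (∀ x, x ⬝ᵥ x ≤ 1 → S *ᵥ x ∈ K) ∧ 0 < S.det ∧
      ∀ S' : Matrix (Fin n) (Fin n) ℝ, (∀ x, x ⬝ᵥ x ≤ 1 → S' *ᵥ x ∈ K) → S'.det ≤ S.det := by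
  classical
  set D : Set (Matrix (Fin n) (Fin n) ℝ) := {S | ∀ x, x ⬝ᵥ x ≤ 1 → S *ᵥ x ∈ K} with hD
  obtain ⟨R, hR⟩ := hc.isBounded.subset_closedBall (0 : Fin n → ℝ)
  have hDc : IsClosed D := by
    have : D = ⋂ x : Fin n → ℝ, ⋂ _ : x ⬝ᵥ x ≤ 1, (fun S : Matrix (Fin n) (Fin n) ℝ => S *ᵥ x) ⁻¹' K := by
      ext S; simp [hD]
    rw [this]
    refine isClosed_iInter fun x => isClosed_iInter fun _ => hc.isClosed.preimage ?_
    exact continuous_id.matrix_mulVec continuous_const
  have hDsub : D ⊆ Set.pi Set.univ (fun _ : Fin n => Set.pi Set.univ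
      fun _ : Fin n => Set.Icc (-R) R) := by
    intro S hS i _ j _
    have h1 := hS (Pi.single j 1) (by simp)
    have h2 := hR h1
    rw [mem_closedBall_zero_iff] at h2
    have h3 := norm_le_pi_norm (S *ᵥ Pi.single j 1) i
    have h4 : (S *ᵥ Pi.single j 1) i = S i j := by simp
    rw [h4, Real.norm_eq_abs] at h3
    exact abs_le.1 (h3.trans h2)
  have hDk : IsCompact D :=
    (isCompact_univ_pi fun _ => isCompact_univ_pi fun _ => isCompact_Icc).of_isClosed_subset hDc
      hDsub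
  rw [Metric.mem_nhds_iff] at h0
  obtain ⟨r, hr, hb⟩ := h0
  have hrD : ((r / 2) • (1 : Matrix (Fin n) (Fin n) ℝ)) ∈ D := by
    intro x hx
    apply hb
    rw [mem_ball_zero_iff, smul_mulVec, one_mulVec, norm_smul, Real.norm_of_nonneg (by positivity)]
    have : ‖x‖ ≤ 1 := by
      rw [pi_norm_le_iff_of_nonneg zero_le_one]
      intro i
      exact abs_le_of_dot hx i
    nlinarith
  obtain ⟨S, hS, hmax⟩ := hDk.exists_isMaxOn ⟨_, hrD⟩
    (f := fun S : Matrix (Fin n) (Fin n) ℝ => S.det) (continuous_id.matrix_det.continuousOn)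
  refine ⟨S, hS, ?_, fun S' hS' => hmax hS'⟩
  have h1 := hmax hrD
  have h2 : (0 : ℝ) < ((r / 2) • (1 : Matrix (Fin n) (Fin n) ℝ)).det := by
    rw [Matrix.det_smul, Matrix.det_one, mul_one]
    positivity
  exact lt_of_lt_of_le h2 h1

theorem lewis {n : ℕ} {K : Set (Fin n → ℝ)} (hv : Convex ℝ K) {S : Matrix (Fin n) (Fin n) ℝ}
    (hS : ∀ x, x ⬝ᵥ x ≤ 1 → S *ᵥ x ∈ K) (hdet : 0 < S.det)
    (hmax : ∀ S' : Matrix (Fin n) (Fin n) ℝ, (∀ x, x ⬝ᵥ x ≤ 1 → S' *ᵥ x ∈ K) → S'.det ≤ S.det)
    (B : Matrix (Fin n) (Fin n) ℝ) (M : ℝ) (hM : 0 ≤ M)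
    (hB : ∀ x, x ⬝ᵥ x ≤ 1 → ∃ y ∈ K, S *ᵥ (B *ᵥ x) = M • y) : B.trace ≤ n * M := by
  apply trace_le_of_det
  intro t ht
  have hp : 0 < 1 + t * M := by positivity
  have h1 := hmax ((1 + t * M)⁻¹ • (S * (1 + t • B))) (by
    intro x hx
    obtain ⟨y, hy, hxy⟩ := hB x hx
    have e : ((1 + t * M)⁻¹ • (S * (1 + t • B))) *ᵥ x =
        ((1 + t * M)⁻¹) • (S *ᵥ x) + ((1 + t * M)⁻¹ * (t * M)) • y := by
      rw [smul_mulVec, ← mulVec_mulVec, add_mulVec, one_mulVec, smul_mulVec, mulVec_add,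
        mulVec_smul, hxy, smul_add, smul_smul, smul_smul]
      congr 2
      ring
    rw [e]
    refine hv (hS x hx) hy (by positivity) (by positivity) ?_
    field_simp)
  rw [Matrix.det_smul, Matrix.det_mul, Fintype.card_fin, inv_pow] at h1
  rw [inv_mul_le_iff₀ (by positivity)] at h1
  have h2 : S.det * det (1 + t • B) ≤ S.det * (1 + t * M) ^ n := by linarith
  exact le_of_mul_le_mul_left h2 hdet

theorem john {n : ℕ} (hn : 0 < n) {K : Set (Fin n → ℝ)} (hc : IsCompact K) (hv : Convex ℝ K)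
    (hs : ∀ x ∈ K, -x ∈ K) (h0 : K ∈ 𝓝 0) :
    ∃ S : Matrix (Fin n) (Fin n) ℝ, 0 < S.det ∧ (∀ x, x ⬝ᵥ x ≤ 1 → S *ᵥ x ∈ K) ∧
      ∃ (ι : Type) (_ : Fintype ι) (v : ι → Fin n → ℝ) (c : ι → ℝ), (∀ i, 0 < c i) ∧
        (∀ i, v i ⬝ᵥ v i = 1) ∧ ∑ i, c i • vecMulVec (v i) (v i) = 1 ∧
        ∀ i, ∀ y, S *ᵥ y ∈ K → |v i ⬝ᵥ y| ≤ 1 := by
  classical
  obtain ⟨S, hS, hdet, hmax⟩ := exists_max hc h0
  refine ⟨S, hdet, hS, ?_⟩
  have h00 : (0 : Fin n → ℝ) ∈ K := mem_of_mem_nhds h0
  set V : Set (Fin n → ℝ) := {v | ∀ y, S *ᵥ y ∈ K → v ⬝ᵥ y ≤ 1} with hV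
  have hV1 : ∀ v ∈ V, v ⬝ᵥ v ≤ 1 := by
    intro v hvV
    have hnn : 0 ≤ v ⬝ᵥ v := Finset.sum_nonneg fun i _ => mul_self_nonneg _
    rcases hnn.eq_or_lt with h | h
    · rw [← h]; exact zero_le_one
    set s := √(v ⬝ᵥ v) with hsdef
    have hs0 : 0 < s := Real.sqrt_pos.2 h
    have hss : s * s = v ⬝ᵥ v := Real.mul_self_sqrt hnn
    have h1 := hvV (s⁻¹ • v) (hS _ (by
      rw [smul_dotProduct, dotProduct_smul, smul_eq_mul, smul_eq_mul, ← hss]
      field_simp
      exact le_refl _))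
    rw [dotProduct_smul, smul_eq_mul, ← hss] at h1
    have h2 : s⁻¹ * (s * s) = s := by field_simp
    rw [h2] at h1
    rw [← hss]
    nlinarith
  have hVc : IsClosed V := by
    have : V = ⋂ y : Fin n → ℝ, ⋂ _ : S *ᵥ y ∈ K, {v | v ⬝ᵥ y ≤ 1} := by
      ext v; simp [hV]
    rw [this]
    refine isClosed_iInter fun y => isClosed_iInter fun _ => isClosed_le ?_ continuous_const
    exact continuous_id.dotProduct continuous_const
  set Q : Set ((Fin n → ℝ) × (Fin n → ℝ)) := {p | p.1 ∈ V ∧ p.2 ⬝ᵥ p.2 ≤ 1} with hQ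
  have hQk : IsCompact Q := by
    apply Metric.isCompact_of_isClosed_isBounded
    · apply IsClosed.inter
      · exact hVc.preimage continuous_fst
      · exact isClosed_le (continuous_snd.dotProduct continuous_snd) continuous_const
    · refine (Metric.isBounded_closedBall (x := (0 : (Fin n → ℝ) × (Fin n → ℝ))) (r := 1)).subset ?_
      rintro ⟨v, z⟩ ⟨h1, h2⟩
      rw [mem_closedBall_zero_iff]
      have hb : ∀ v : Fin n → ℝ, v ⬝ᵥ v ≤ 1 → ‖v‖ ≤ 1 := by
        intro v hv
        rw [pi_norm_le_iff_of_nonneg zero_le_one]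
        intro i
        exact abs_le_of_dot hv i
      exact max_le (hb v (hV1 v h1)) (hb z h2)
  set P : Set (Fin n → Fin n → ℝ) :=
    (fun p : (Fin n → ℝ) × (Fin n → ℝ) => fun i j => p.1 i * p.2 j) '' Q with hP
  have hPk : IsCompact (convexHull ℝ P) := compact_hull (hQk.image (by fun_prop))
  have hn' : (0 : ℝ) < n := by exact_mod_cast hn
  have hmem : (fun i j => if i = j then (1 / n : ℝ) else 0 : Fin n → Fin n → ℝ) ∈
      convexHull ℝ P := by
    by_contra hnot
    obtain ⟨f, u, hfu, hux⟩ := geometric_hahn_banach_closed_point (convex_convexHull ℝ _)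
      hPk.isClosed hnot
    obtain ⟨B, hfB⟩ := exists_mat f
    have hu0 : 0 < u := by
      have h1 := hfu 0 (subset_convexHull ℝ _ ⟨(0, 0), ⟨fun y _ => by simp, by simp⟩, by
        funext i j; simp⟩)
      simpa using h1
    have hfP : ∀ v ∈ V, ∀ z : Fin n → ℝ, z ⬝ᵥ z ≤ 1 → v ⬝ᵥ (B *ᵥ z) < u := by
      intro v hvV z hz
      have h2 := hfu _ (subset_convexHull ℝ _ ⟨(v, z), ⟨hvV, hz⟩, rfl⟩)
      rw [hfB] at h2
      have h3 : (∑ i, ∑ j, (v i * z j) * B i j) = v ⬝ᵥ (B *ᵥ z) := by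
        simp only [dotProduct, mulVec, Finset.mul_sum]
        refine Finset.sum_congr rfl fun i _ => Finset.sum_congr rfl fun j _ => by ring
      rw [← h3]
      exact h2
    have h1 : ∀ z, z ⬝ᵥ z ≤ 1 → ∃ y ∈ K, S *ᵥ (B *ᵥ z) = u • y := by
      intro z hz
      refine ⟨u⁻¹ • S *ᵥ (B *ᵥ z), ?_, by rw [smul_smul, mul_inv_cancel₀ hu0.ne', one_smul]⟩
      by_contra hnK
      obtain ⟨g, c, hgc, hcx⟩ := geometric_hahn_banach_closed_point hv hc.isClosed hnK
      obtain ⟨a, ha⟩ := exists_vec g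
      have hc0 : 0 < c := by
        have := hgc 0 h00
        simpa using this
      have hvV : (c⁻¹ • (a ᵥ* S)) ∈ V := by
        intro y hy
        have h4 := hgc _ hy
        rw [ha, dotProduct_mulVec] at h4
        rw [smul_dotProduct, smul_eq_mul, inv_mul_le_iff₀ hc0]
        linarith
      have h5 := hfP _ hvV z hz
      rw [smul_dotProduct, smul_eq_mul, inv_mul_lt_iff₀ hc0, ← dotProduct_mulVec] at h5
      rw [ha, dotProduct_smul, smul_eq_mul, lt_inv_mul_iff₀ hu0] at hcx
      linarith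
    have h2 := lewis hv hS hdet hmax B u hu0.le h1
    rw [hfB] at hux
    have h3 : (∑ i, ∑ j, (if i = j then (1 / n : ℝ) else 0) * B i j) = (1 / n : ℝ) * B.trace := by
      unfold Matrix.trace
      rw [Finset.mul_sum]
      refine Finset.sum_congr rfl (fun i _ => ?_)
      rw [Finset.sum_eq_single i]
      · simp
      · intro j _ hj
        rw [if_neg (Ne.symm hj), zero_mul]
      · intro h; exact absurd (Finset.mem_univ _) h
    change u < (∑ i, ∑ j, (if i = j then (1 / n : ℝ) else 0) * B i j) at hux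
    rw [h3, one_div, lt_inv_mul_iff₀ hn'] at hux
    linarith
  obtain ⟨ι, hι, z, w, hz, -, hw0, hw1, hwz⟩ := eq_pos_convex_span_of_mem_convexHull hmem
  have hz' : ∀ k, ∃ p ∈ Q, (fun i j => p.1 i * p.2 j : Fin n → Fin n → ℝ) = z k :=
    fun k => hz ⟨k, rfl⟩
  choose p hpQ hpz using hz'
  have hent : ∀ i j, ∑ k, w k * ((p k).1 i * (p k).2 j) = if i = j then (1 / n : ℝ) else 0 := by
    intro i j
    have h1 := congrFun (congrFun hwz i) j
    simp only [Finset.sum_apply, Pi.smul_apply, smul_eq_mul] at h1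
    rw [← h1]
    refine Finset.sum_congr rfl fun k _ => ?_
    rw [← hpz k]
  have htr : ∑ k, w k * ((p k).1 ⬝ᵥ (p k).2) = 1 := by
    have h1 : ∑ k, w k * ((p k).1 ⬝ᵥ (p k).2) = ∑ i, ∑ k, w k * ((p k).1 i * (p k).2 i) := by
      rw [Finset.sum_comm]
      refine Finset.sum_congr rfl fun k _ => ?_
      rw [dotProduct, Finset.mul_sum]
    rw [h1]
    simp only [hent, if_true]
    rw [Finset.sum_const, Finset.card_univ, Fintype.card_fin, nsmul_eq_mul]
    field_simp
  have hkey : ∀ k, (p k).1 ⬝ᵥ (p k).2 + (1 / 2) * (((p k).1 - (p k).2) ⬝ᵥ ((p k).1 - (p k).2)) ≤ 1 := by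
    intro k
    have h1 := hV1 _ (hpQ k).1
    have h2 := (hpQ k).2
    rw [sub_dotProduct, dotProduct_sub, dotProduct_sub, dotProduct_comm (p k).2 (p k).1]
    linarith
  have hsq : ∀ k, 0 ≤ ((p k).1 - (p k).2) ⬝ᵥ ((p k).1 - (p k).2) := fun k =>
    Finset.sum_nonneg fun i _ => mul_self_nonneg _
  have heq1 : ∀ k, (p k).1 ⬝ᵥ (p k).2 = 1 := by
    have h1 : ∑ k, w k * (1 - (p k).1 ⬝ᵥ (p k).2) = 0 := by
      simp only [mul_sub, mul_one, Finset.sum_sub_distrib]
      rw [htr, hw1, sub_self]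
    have h2 := (Finset.sum_eq_zero_iff_of_nonneg (fun k _ => mul_nonneg (hw0 k).le (by
      have := hkey k
      have := hsq k
      linarith))).1 h1
    intro k
    have h3 := h2 k (Finset.mem_univ k)
    rcases mul_eq_zero.1 h3 with h | h
    · exact absurd h (hw0 k).ne'
    · linarith
  have heq2 : ∀ k, (p k).1 = (p k).2 := by
    intro k
    have h1 : ((p k).1 - (p k).2) ⬝ᵥ ((p k).1 - (p k).2) = 0 := by
      have := hkey k
      have := hsq k
      have := heq1 k
      linarith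
    exact sub_eq_zero.1 (dotProduct_self_eq_zero.1 h1)
  refine ⟨ι, hι, fun k => (p k).1, fun k => n * w k, fun k => mul_pos hn' (hw0 k), ?_, ?_, ?_⟩
  · intro k
    have := heq1 k
    rwa [← heq2 k] at this
  · ext i j
    rw [Matrix.sum_apply]
    simp only [Matrix.smul_apply, vecMulVec_apply, smul_eq_mul]
    have h1 := hent i j
    have h2 : ∑ k, (n * w k) * ((p k).1 i * (p k).1 j) = n * (if i = j then (1 / n : ℝ) else 0) := by
      rw [← h1, Finset.mul_sum]
      refine Finset.sum_congr rfl fun k _ => ?_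
      rw [← heq2 k]
      ring
    rw [h2, Matrix.one_apply]
    split_ifs
    · field_simp
    · simp
  · intro k y hy
    rw [abs_le]
    constructor
    · have h1 := (hpQ k).1 (-y) (by rw [mulVec_neg]; exact hs _ hy)
      rw [dotProduct_neg] at h1
      linarith
    · exact (hpQ k).1 y hy

end Pool.Agent.W569
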